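import Pool.Agent.W46.HM.Stm

set_option autoImplicit false

open Finset
open scoped Classical

namespace Pool.Agent.W349.HM
open Pool.Agent.W904.AK Pool.Agent.W46.HD Pool.Agent.W46.HM

theorem hh_nonneg {Ω : Type} [Fintype Ω] {d n : ℕ} (A D : Ω → Fin d → ℝ) (p : Ω × Fin n → ℝ)
    (hp : IsLaw p) : 0 ≤ hh A D p := by
  unfold hh
  have h1 : H p Prod.snd ≤ H p (fun z => (z.2, cell A D z.2 z.1)) :=
    H_mono hp (fun x y _ _ h => congrArg Prod.fst h)
  linarith

theorem AllT_mono (hPSI : S_PSI) {d : ℕ} {b b' G G' : ℝ} (hb : b ≤ b') (hG : G ≤ G')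
    (h : AllT d b G) : AllT d b' G' := by
  obtain ⟨C, hC, hall⟩ := h
  refine ⟨C, hC, ?_⟩
  intro n Ω _ A D hF p hp
  have h1 := hall n Ω A D hF p hp
  have h2 := hh_nonneg A D p hp
  have h3 := (hPSI Ω n p hF.pos hp).1
  have h4 := mul_le_mul_of_nonneg_right hb h2
  have h5 := mul_le_mul_of_nonneg_right hG h3
  linarith

/-- one step of the iteration -/
theorem one_step (hS : S_STEPT) (hG : S_TOG) (hPSI : S_PSI) {d : ℕ} {e : ℝ}
    (he : e = ((d : ℝ) + 1 / 100) / (1 - 1 / 100)) (b b' G' : ℝ) (hb : 1 < b)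
    (h : AllT d b e) (h1 : (3 * b ^ 2 + 2 * b - 2) ≤ b' * (b ^ 2 + 3 * b - 2))
    (h2 : 5 * b ^ 2 + 4 * b - 4 + (4 * b - 2) * (1 + e) ≤ G' * (b ^ 2 + 3 * b - 2)) :
    AllT d b' G' := by
  have he0 : 0 ≤ e := by
    rw [he]
    positivity
  have h3 := hG d b e (1 / 100) (by norm_num) (by norm_num) he0 h
  rw [← he, max_self] at h3
  have h4 := hS d b (1 + e) hb (by linarith) h3
  have hpos : 0 < b ^ 2 + 3 * b - 2 := by nlinarith
  refine AllT_mono hPSI ?_ ?_ h4
  · rw [div_le_iff₀ hpos]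
    exact h1
  · rw [div_le_iff₀ hpos]
    exact h2

theorem ITER (hB : S_BASET) (hS : S_STEPT) (hG : S_TOG) (hT : S_TOS) (hPSI : S_PSI) : S_ITER := by
  intro d hd
  have hd' : (25 : ℝ) ≤ d := by exact_mod_cast hd
  set e : ℝ := ((d : ℝ) + 1 / 100) / (1 - 1 / 100) with he
  have he' : e * (99 / 100) = d + 1 / 100 := by
    rw [he]
    norm_num
  have he25 : (25 : ℝ) ≤ e := by linarith
  have h0 : AllT d 2 e := AllT_mono hPSI le_rfl (by linarith) (hB d)
  have h1 : AllT d (7 / 4) e := one_step hS hG hPSI he 2 _ _ (by norm_num) h0 (by norm_num)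
    (by linarith)
  have h2 : AllT d (16931 / 10000) e := one_step hS hG hPSI he _ _ _ (by norm_num) h1 (by norm_num)
    (by linarith)
  have h3 : AllT d (16795 / 10000) e := one_step hS hG hPSI he _ _ _ (by norm_num) h2 (by norm_num)
    (by linarith)
  have h4 : AllT d (16762 / 10000) e := one_step hS hG hPSI he _ _ _ (by norm_num) h3 (by norm_num)
    (by linarith)
  have h5 : AllT d (16754 / 10000) e := one_step hS hG hPSI he _ _ _ (by norm_num) h4 (by norm_num)
    (by linarith)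
  have h6 : AllT d (16752 / 10000) e := one_step hS hG hPSI he _ _ _ (by norm_num) h5 (by norm_num)
    (by linarith)
  have h7 : AllT d (167518 / 100000) d := one_step hS hG hPSI he _ _ _ (by norm_num) h6
    (by norm_num) (by linarith)
  exact hT d _ d (by omega) (by norm_num) (by positivity) le_rfl h7

end Pool.Agent.W349.HM
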