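import Pool.Agent.W349.HM.Gl

set_option autoImplicit false

open Finset
open scoped Classical

namespace Pool.Agent.W349.HM
open Pool.Agent.W904.AK Pool.Agent.W46.HD Pool.Agent.W46.HM

theorem TE_app (hTE : S_TE) (e1 : ℝ) (he0 : 0 < e1) (he1 : e1 < 1) : ∃ B : ℝ, 0 ≤ B ∧
    ∀ (n : ℕ) (Ω : Type) [Fintype Ω] (p : Ω × Fin n → ℝ), 1 ≤ n → IsLaw p →
    ∃ lev : Ω → Fin n → ℕ, (∀ ω s, 2 ^ lev ω s < 2 * n) ∧
      (∀ (ω : Ω) (s x : Fin n),
        ∑ z, (if lb (lev ω) z = lb (lev ω) s then p (ω, z) * max 0 (psi (2 ^ lev ω s) z x) else 0) ≤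
          B * ∑ z, (if lb (lev ω) z = lb (lev ω) s then p (ω, z) else 0)) ∧
      (∀ (ω : Ω), Pm p ω ≠ 0 → ∀ x : Fin n,
        ∑ y, mu p ω y * max 0 (psi (2 ^ lev ω y) y x) ≤ B) ∧
      H p (fun z => (z.1, lab lev z)) - H p Prod.fst ≤ B + e1 *
        ∑ z, glue p p Prod.fst Prod.fst z *
          max 0 (Real.log (|((z.1.2 : ℕ) : ℝ) - (z.2.2 : ℕ)| / 2 ^ lev z.1.1 z.2.2)) := by
  obtain ⟨B, hB, hall⟩ := hTE e1 he0 he1
  refine ⟨B, hB, ?_⟩
  intro n Ω _ p hn hp
  have hex : ∀ ω : Ω, ∃ lev : Fin n → ℕ, (∀ s, 2 ^ lev s < 2 * n) ∧ (Pm p ω ≠ 0 →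
      (∀ s x : Fin n, ∑ z, (if lb lev z = lb lev s then mu p ω z * max 0 (psi (2 ^ lev s) z x) else 0) ≤
        B * ∑ z, (if lb lev z = lb lev s then mu p ω z else 0)) ∧
      H (mu p ω) (lb lev) ≤ B + e1 * ∑ x, ∑ y, mu p ω x * mu p ω y *
        max 0 (Real.log (|((x : ℕ) : ℝ) - (y : ℕ)| / 2 ^ lev y))) := by
    intro ω
    by_cases hω : Pm p ω = 0
    · refine ⟨fun _ => 0, fun s => ?_, fun h => absurd hω h⟩
      simp only [pow_zero]
      omega
    · obtain ⟨lev, h1, h2, h3⟩ := hall n hn (mu p ω) (mu_law hp ω hω)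
      exact ⟨lev, h1, fun _ => ⟨h2, h3⟩⟩
  choose lev hlev hrest using hex
  refine ⟨lev, hlev, ?_, ?_, ?_⟩
  · intro ω s x
    by_cases hω : Pm p ω = 0
    · have h0 : ∀ z, p (ω, z) = 0 := fun z => by rw [p_eq hp, hω, zero_mul]
      simp [h0]
    · have h1 := (hrest ω hω).1 s x
      have h2 := mul_le_mul_of_nonneg_left h1 (Pm_nonneg hp ω)
      have e1 : ∑ z, (if lb (lev ω) z = lb (lev ω) s then p (ω, z) * max 0 (psi (2 ^ lev ω s) z x)
          else 0) = Pm p ω * ∑ z, (if lb (lev ω) z = lb (lev ω) s then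
            mu p ω z * max 0 (psi (2 ^ lev ω s) z x) else 0) := by
        rw [Finset.mul_sum]
        apply Finset.sum_congr rfl
        intro z _
        rw [p_eq hp ω z]
        split_ifs <;> ring
      have e2 : B * ∑ z, (if lb (lev ω) z = lb (lev ω) s then p (ω, z) else 0) =
          Pm p ω * (B * ∑ z, (if lb (lev ω) z = lb (lev ω) s then mu p ω z else 0)) := by
        rw [← mul_assoc, mul_comm (Pm p ω) B, mul_assoc, Finset.mul_sum (a := Pm p ω)]
        congr 1
        apply Finset.sum_congr rfl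
        intro z _
        rw [p_eq hp ω z]
        split_ifs <;> ring
      rw [e1, e2]
      exact h2
  · intro ω hω x
    apply class_sum (mu p ω) (fun y => max 0 (psi (2 ^ lev ω y) y x)) (mu_law hp ω hω).total
      (lb (lev ω)) B
    intro s
    refine le_trans (le_of_eq ?_) ((hrest ω hω).1 s x)
    apply Finset.sum_congr rfl
    intro z _
    by_cases h : lb (lev ω) z = lb (lev ω) s
    · have h2 : lev ω z = lev ω s := congrArg Prod.fst h
      rw [if_pos h, if_pos h, h2]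
    · rw [if_neg h, if_neg h]
  · rw [Hl_eq hp lev]
    have h1 : ∀ z : Ω × Fin n, p z * H (mu p z.1) (lb (lev z.1)) ≤ p z * B + e1 * (p z *
        ∑ x, ∑ y, mu p z.1 x * mu p z.1 y *
          max 0 (Real.log (|((x : ℕ) : ℝ) - (y : ℕ)| / 2 ^ lev z.1 y))) := by
      intro z
      by_cases hz : p z = 0
      · rw [hz]; simp
      · have hw : Pm p z.1 ≠ 0 := (im_pos hp (Prod.fst : Ω × Fin n → Ω) hz).ne'
        have h2 := mul_le_mul_of_nonneg_left (hrest z.1 hw).2 (hp.nonneg z)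
        linarith
    refine (Finset.sum_le_sum fun z _ => h1 z).trans ?_
    rw [Finset.sum_add_distrib, ← Finset.sum_mul, hp.total, one_mul, ← Finset.mul_sum,
      sum_two hp (fun w x y => max 0 (Real.log (|((x : ℕ) : ℝ) - (y : ℕ)| / 2 ^ lev w y)))]

theorem partA (hCOST : S_COST) (hG1 : S_G1) {d n : ℕ} {Ω : Type} [Fintype Ω]
    (A D : Ω → Fin d → ℝ) (hF : IsFam n D) {p : Ω × Fin n → ℝ} (hp : IsLaw p) :
    ∑ z, glue p p Prod.fst Prod.fst z *
      max 0 (Real.log (Fintype.card Ω) - d * (3 + psi n z.1.2 z.2.2)) ≤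
      Real.log (Fintype.card Ω) - aa p + 2 * (hh A D p + mi p) := by
  set r := glue p p (Prod.fst : Ω × Fin n → Ω) Prod.fst with hr
  have hrl : IsLaw r := glue_law hp hp (fun _ => rfl)
  have h1 := hCOST ((Ω × Fin n) × (Ω × Fin n)) ((Fin n × (Fin d → ℤ)) × (Fin n × (Fin d → ℤ))) Ω r
    (fun z => ((z.1.2, cell A D z.1.2 z.1.1), (z.2.2, cell A D z.2.2 z.2.1)))
    (fun z => z.1.1)
    (fun z => min (Real.log (Fintype.card Ω)) (d * (3 + psi n z.1.2 z.2.2))) hrl (by
      intro x hx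
      have hx1 : x.1.1 = x.2.1 := (glue_supp hx).1
      refine ⟨Finset.univ.filter (fun ω => cell A D x.1.2 ω = cell A D x.1.2 x.1.1 ∧
        cell A D x.2.2 ω = cell A D x.2.2 x.2.1), ?_, ?_⟩
      · intro y hy hxy
        have hy1 : y.1.1 = y.2.1 := (glue_supp hy).1
        simp only [Prod.mk.injEq] at hxy
        obtain ⟨⟨ha, hb⟩, hc, hd⟩ := hxy
        rw [Finset.mem_filter]
        refine ⟨Finset.mem_univ _, ?_, ?_⟩
        · rw [← hb, ha]
        · rw [← hd, hc, hy1]
      · apply le_min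
        · apply Real.log_le_log
          · have : 0 < (Finset.univ.filter (fun ω => cell A D x.1.2 ω = cell A D x.1.2 x.1.1 ∧
              cell A D x.2.2 ω = cell A D x.2.2 x.2.1)).card :=
              Finset.card_pos.2 ⟨x.1.1, Finset.mem_filter.2 ⟨Finset.mem_univ _, rfl, by rw [hx1]⟩⟩
            exact_mod_cast this
          · exact_mod_cast Finset.card_le_univ _
        · exact hG1 d n Ω A D hF x.1.2 x.2.2 x.1.2.2 x.2.2.2 _ _ _
            (fun ω hω => (Finset.mem_filter.1 hω).2))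
  have h2 : H r (fun z => (z.1, z.2)) = H p id + H p id - H p Prod.fst :=
    H_glue hp hp (fun _ => rfl) (u := id) (v := id) (fun x y _ _ h => congrArg Prod.fst h)
      (fun x y _ _ h => congrArg Prod.fst h)
  have h3 : H r (fun z => (z.1, z.2)) ≤ H r (fun z =>
      (((z.1.2, cell A D z.1.2 z.1.1), (z.2.2, cell A D z.2.2 z.2.1)), z.1.1)) := by
    apply H_mono hrl
    intro x y hx hy h
    simp only [Prod.mk.injEq] at h
    have hx1 : x.1.1 = x.2.1 := (glue_supp hx).1
    have hy1 : y.1.1 = y.2.1 := (glue_supp hy).1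
    obtain ⟨⟨⟨ha, -⟩, hb, -⟩, hc⟩ := h
    have e1 : x.1 = y.1 := Prod.ext hc ha
    have e2 : x.2 = y.2 := Prod.ext (by rw [← hx1, ← hy1, hc]) hb
    simp only [Prod.mk.injEq]
    exact ⟨e1, e2⟩
  have h4 : H r (fun z => ((z.1.2, cell A D z.1.2 z.1.1), (z.2.2, cell A D z.2.2 z.2.1))) ≤
      H p (fun z => (z.2, cell A D z.2 z.1)) + H p (fun z => (z.2, cell A D z.2 z.1)) := by
    have h5 := subadd hrl (f := fun z : (Ω × Fin n) × (Ω × Fin n) => (z.1.2, cell A D z.1.2 z.1.1))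
      (g := fun z : (Ω × Fin n) × (Ω × Fin n) => (z.2.2, cell A D z.2.2 z.2.1))
      (k := fun z : (Ω × Fin n) × (Ω × Fin n) =>
        ((z.1.2, cell A D z.1.2 z.1.1), (z.2.2, cell A D z.2.2 z.2.1))) (fun _ _ _ _ h => h)
    have h6 : H r (fun z => (z.1.2, cell A D z.1.2 z.1.1)) = H p (fun z => (z.2, cell A D z.2 z.1)) :=
      H_glue_fst hp (fun _ => rfl) (fun z : Ω × Fin n => (z.2, cell A D z.2 z.1))
    have h7 : H r (fun z => (z.2.2, cell A D z.2.2 z.2.1)) = H p (fun z => (z.2, cell A D z.2 z.1)) :=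
      H_glue_snd hp (fun _ => rfl) (fun z : Ω × Fin n => (z.2, cell A D z.2 z.1))
    rw [h6, h7] at h5
    exact h5
  have h5 : ∑ z, r z * min (Real.log (Fintype.card Ω)) (d * (3 + psi n z.1.2 z.2.2)) =
      Real.log (Fintype.card Ω) - ∑ z, r z *
        max 0 (Real.log (Fintype.card Ω) - d * (3 + psi n z.1.2 z.2.2)) := by
    have h6 : ∀ z, r z * min (Real.log (Fintype.card Ω)) (d * (3 + psi n z.1.2 z.2.2)) =
        r z * Real.log (Fintype.card Ω) - r z *
          max 0 (Real.log (Fintype.card Ω) - d * (3 + psi n z.1.2 z.2.2)) := by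
      intro z
      rw [← mul_sub]
      congr 1
      rcases le_total (Real.log (Fintype.card Ω)) (d * (3 + psi n z.1.2 z.2.2)) with h | h
      · rw [min_eq_left h, max_eq_left (by linarith)]
        ring
      · rw [min_eq_right h, max_eq_right (by linarith)]
        ring
    simp_rw [h6]
    rw [Finset.sum_sub_distrib, ← Finset.sum_mul, hrl.total, one_mul]
  rw [h5] at h1
  unfold aa hh mi
  linarith

theorem TOS (hTE : S_TE) (hLOC : S_LOC) (hHJ : S_HJ) (hCOST : S_COST) (hG1 : S_G1)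
    (_hPSI : S_PSI) : S_TOS := by
  intro d b G hd hb hG hGd hAll ε hε
  obtain ⟨C1, hC1, hall⟩ := hAll
  have hd' : (1 : ℝ) ≤ d := by exact_mod_cast hd
  set e1 : ℝ := min (1 / 2) (ε / (8 * d + 12)) with he1
  have he0 : 0 < e1 := lt_min (by norm_num) (by positivity)
  have he2 : e1 ≤ 1 / 2 := min_le_left _ _
  have heε : e1 * (8 * d + 12) ≤ ε := by
    have h1 : e1 ≤ ε / (8 * d + 12) := min_le_right _ _
    rwa [le_div_iff₀ (by positivity)] at h1
  obtain ⟨B, hB, hTE'⟩ := TE_app hTE e1 he0 (by linarith)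
  obtain ⟨CJ, hCJ, hJ⟩ := hHJ e1 he0
  refine ⟨(d + 1) * (2 * B + (6 + B)) + CJ + (6 + 2 * B) + 2 * d + C1 * (1 + B), by positivity, ?_⟩
  intro n Ω _ A D hF p hp
  have hn := hF.pos
  have hn' : (0 : ℝ) < n := by exact_mod_cast hn
  obtain ⟨lev, hlev, hloc, hcls, hHl⟩ := hTE' n Ω p hn hp
  set lc := Real.log (Fintype.card Ω) with hlc
  set kap : ℝ := lc / d with hkap
  have hkd : d * kap = lc := by
    rw [hkap]
    field_simp
  -- basic quantities
  have haalc : aa p ≤ lc := by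
    have := H_le_log_card hp (Prod.fst : Ω × Fin n → Ω) Finset.univ (fun x _ => Finset.mem_univ _)
    rwa [Finset.card_univ] at this
  have hhh : 0 ≤ hh A D p := by
    unfold hh
    have h1 : H p Prod.snd ≤ H p (fun z => (z.2, cell A D z.2 z.1)) :=
      H_mono hp (fun x y _ _ h => congrArg Prod.fst h)
    linarith
  have hmi : 0 ≤ mi p := by
    unfold mi
    have h1 : H p id ≤ H p Prod.fst + H p Prod.snd :=
      subadd hp (f := (Prod.fst : Ω × Fin n → Ω)) (g := (Prod.snd : Ω × Fin n → Fin n))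
        (fun _ _ _ _ h => h)
    linarith
  set Ip : ℝ := lc - aa p + hh A D p + mi p with hIp
  have hIp0 : 0 ≤ Ip := by linarith
  have hCpos : 0 ≤ (d + 1) * (2 * B + (6 + B)) + CJ + (6 + 2 * B) + 2 * d + C1 * (1 + B) := by
    positivity
  by_cases hcase : aa p ≤ b * (hh A D p + mi p) + d * lam p
  · have := mul_nonneg hε.le hIp0
    linarith
  push Not at hcase
  have hlamkap : lam p ≤ kap := by
    have h1 : 0 ≤ b * (hh A D p + mi p) := by positivity
    have h2 : d * lam p ≤ d * kap := by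
      rw [hkd]
      linarith
    exact le_of_mul_le_mul_left h2 (by linarith)
  -- the facts
  have f1a := fact1a D hp lev
  have f1b := fact1b D hp lev
  have f3 := fact3 A D hp lev
  have f4 := fact4 hCOST D hn hp lev (fun ω s _ => hlev ω s)
  have f5 := fact5 hp lev
  have f7 := fact7 hCOST hp lev
  have hL := hLOC d b G C1 hC1 hall n Ω A D hF p hp lev B hB hloc
  rw [f1a, f1b] at hL
  set Hl : ℝ := H p (fun z => (z.1, lab lev z)) - H p Prod.fst with hHld
  set X : ℝ := Real.log n - LL p lev with hX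
  have hLLe : ∑ z, p z * Real.log ((2 : ℝ) ^ lev z.1 z.2) = LL p lev := rfl
  rw [hLLe] at hL
  -- the auxiliary quantities
  set r := glue p p (Prod.fst : Ω × Fin n → Ω) Prod.fst with hr
  have hrl : IsLaw r := glue_law hp hp (fun _ => rfl)
  set a_ : ℝ := ∑ z, r z * max 0 (kap - 3 - psi n z.1.2 z.2.2) with ha
  set b_ : ℝ := ∑ z, p z * max 0 (kap - (Real.log n - Real.log ((2 : ℝ) ^ lev z.1 z.2))) with hb_
  set Loss : ℝ := ∑ z, r z *
    max 0 (Real.log (|((z.1.2 : ℕ) : ℝ) - (z.2.2 : ℕ)| / 2 ^ lev z.1.1 z.2.2)) with hLoss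
  have ha0 : 0 ≤ a_ := Finset.sum_nonneg fun z _ => mul_nonneg (hrl.nonneg z) (le_max_left _ _)
  have hb0 : 0 ≤ b_ := Finset.sum_nonneg fun z _ => mul_nonneg (hp.nonneg z) (le_max_left _ _)
  have haI : a_ ≤ 2 * Ip := by
    have h1 := partA hCOST hG1 A D hF hp
    have h2 : ∑ z, r z * max 0 (lc - d * (3 + psi n z.1.2 z.2.2)) = d * a_ := by
      rw [ha, Finset.mul_sum]
      apply Finset.sum_congr rfl
      intro z _
      have h3 : lc - d * (3 + psi n z.1.2 z.2.2) = d * (kap - 3 - psi n z.1.2 z.2.2) := by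
        rw [← hkd]
        ring
      have h4 : max 0 ((d : ℝ) * (kap - 3 - psi n z.1.2 z.2.2)) =
          d * max 0 (kap - 3 - psi n z.1.2 z.2.2) := by
        rw [mul_max_of_nonneg _ _ (by linarith), mul_zero]
      rw [h3, h4]
      ring
    rw [h2] at h1
    have h3 : a_ ≤ d * a_ := le_mul_of_one_le_left ha0 hd'
    linarith
  -- psi at the scale of the label
  have hpsi : ∀ z : (Ω × Fin n) × (Ω × Fin n), psi n z.1.2 z.2.2 =
      Real.log n - Real.log ((2 : ℝ) ^ lev z.1.1 z.2.2) + psi (2 ^ lev z.1.1 z.2.2) z.2.2 z.1.2 := by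
    intro z
    unfold psi
    have hm : (0 : ℝ) < max 1 |((z.1.2 : ℕ) : ℝ) - ((z.2.2 : ℕ) : ℝ)| := lt_max_of_lt_left one_pos
    have hm' : |((z.2.2 : ℕ) : ℝ) - ((z.1.2 : ℕ) : ℝ)| = |((z.1.2 : ℕ) : ℝ) - ((z.2.2 : ℕ) : ℝ)| :=
      abs_sub_comm _ _
    rw [hm', Real.log_div hn'.ne' hm.ne', Real.log_div (by positivity) hm.ne']
    push_cast
    ring
  have hbB : b_ ≤ a_ + 3 + B := by
    have h1 : ∑ z, r z * max 0 (psi (2 ^ lev z.1.1 z.2.2) z.2.2 z.1.2) ≤ B := by
      rw [hr, glue_sum (p := p) (fun z => max 0 (psi (2 ^ lev z.1.1 z.2.2) z.2.2 z.1.2))]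
      have h2 : ∀ z : Ω × Fin n, p z * ∑ y, mu p z.1 y * max 0 (psi (2 ^ lev z.1 y) y z.2) ≤
          p z * B := by
        intro z
        by_cases hz : p z = 0
        · rw [hz]; simp
        · have hw : Pm p z.1 ≠ 0 := (im_pos hp (Prod.fst : Ω × Fin n → Ω) hz).ne'
          exact mul_le_mul_of_nonneg_left (hcls z.1 hw z.2) (hp.nonneg z)
      refine (Finset.sum_le_sum fun z _ => h2 z).trans ?_
      rw [← Finset.sum_mul, hp.total, one_mul]
    have h2 : b_ = ∑ z, r z * max 0 (kap - (Real.log n - Real.log ((2 : ℝ) ^ lev z.1.1 z.2.2))) := by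
      have h3 := glue_sum_snd hp
        (fun z => max 0 (kap - (Real.log n - Real.log ((2 : ℝ) ^ lev z.1 z.2))))
      rw [hb_, ← h3]
      apply Finset.sum_congr rfl
      intro z _
      by_cases hz : glue p p (Prod.fst : Ω × Fin n → Ω) Prod.fst z = 0
      · rw [hr, hz]; simp
      · have h4 : z.1.1 = z.2.1 := (glue_supp hz).1
        rw [h4]
    have h3 : ∀ z, r z * max 0 (kap - (Real.log n - Real.log ((2 : ℝ) ^ lev z.1.1 z.2.2))) ≤
        r z * max 0 (kap - 3 - psi n z.1.2 z.2.2) + r z * 3 +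
          r z * max 0 (psi (2 ^ lev z.1.1 z.2.2) z.2.2 z.1.2) := by
      intro z
      rw [← mul_add, ← mul_add]
      apply mul_le_mul_of_nonneg_left _ (hrl.nonneg z)
      have h4 := hpsi z
      have m1 := le_max_left 0 (kap - 3 - psi n z.1.2 z.2.2)
      have m2 := le_max_right 0 (kap - 3 - psi n z.1.2 z.2.2)
      have m3 := le_max_left 0 (psi (2 ^ lev z.1.1 z.2.2) z.2.2 z.1.2)
      have m4 := le_max_right 0 (psi (2 ^ lev z.1.1 z.2.2) z.2.2 z.1.2)
      apply max_le <;> linarith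
    rw [h2]
    refine (Finset.sum_le_sum fun z _ => h3 z).trans ?_
    rw [Finset.sum_add_distrib, Finset.sum_add_distrib, ← Finset.sum_mul, hrl.total]
    linarith
  have hXs : ∑ z, p z * (Real.log n - Real.log ((2 : ℝ) ^ lev z.1 z.2)) = X := by
    simp_rw [mul_sub]
    rw [Finset.sum_sub_distrib, ← Finset.sum_mul, hp.total, one_mul]
    rfl
  have hLossle : Loss ≤ (X - kap + b_) + (a_ + 3) := by
    have h1 : ∀ z, r z * max 0 (Real.log (|((z.1.2 : ℕ) : ℝ) - (z.2.2 : ℕ)| / 2 ^ lev z.1.1 z.2.2)) ≤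
        r z * ((Real.log n - Real.log ((2 : ℝ) ^ lev z.1.1 z.2.2)) - kap +
          max 0 (kap - (Real.log n - Real.log ((2 : ℝ) ^ lev z.1.1 z.2.2)))) +
        (r z * max 0 (kap - 3 - psi n z.1.2 z.2.2) + r z * 3) := by
      intro z
      rw [← mul_add, ← mul_add]
      apply mul_le_mul_of_nonneg_left _ (hrl.nonneg z)
      have m1 := le_max_left 0 (kap - 3 - psi n z.1.2 z.2.2)
      have m2 := le_max_right 0 (kap - 3 - psi n z.1.2 z.2.2)
      have m3 := le_max_left 0 (kap - (Real.log n - Real.log ((2 : ℝ) ^ lev z.1.1 z.2.2)))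
      have m4 := le_max_right 0 (kap - (Real.log n - Real.log ((2 : ℝ) ^ lev z.1.1 z.2.2)))
      apply max_le
      · linarith
      · have hLp : (0 : ℝ) < (2 : ℝ) ^ lev z.1.1 z.2.2 := by positivity
        by_cases hxy : ((z.1.2 : ℕ) : ℝ) - (z.2.2 : ℕ) = 0
        · rw [hxy, abs_zero, zero_div, Real.log_zero]
          linarith
        · have h5 : (1 : ℝ) ≤ |((z.1.2 : ℕ) : ℝ) - (z.2.2 : ℕ)| := by
            have h6 : ((z.1.2 : ℕ) : ℤ) - ((z.2.2 : ℕ) : ℤ) ≠ 0 := by
              intro h7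
              apply hxy
              have h8 : (((z.1.2 : ℕ) : ℤ) : ℝ) - (((z.2.2 : ℕ) : ℤ) : ℝ) = 0 := by
                exact_mod_cast h7
              simpa using h8
            have h7 := Int.one_le_abs h6
            have h8 : (1 : ℝ) ≤ |((((z.1.2 : ℕ) : ℤ) - ((z.2.2 : ℕ) : ℤ) : ℤ) : ℝ)| := by
              rw [← Int.cast_abs]
              exact_mod_cast h7
            push_cast at h8
            exact h8
          have h6 : psi n z.1.2 z.2.2 = Real.log n - Real.log |((z.1.2 : ℕ) : ℝ) - (z.2.2 : ℕ)| := by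
            unfold psi
            rw [max_eq_right h5, Real.log_div hn'.ne' (by positivity)]
          rw [Real.log_div (by positivity) hLp.ne']
          linarith
    refine (Finset.sum_le_sum fun z _ => h1 z).trans ?_
    rw [Finset.sum_add_distrib, Finset.sum_add_distrib, ← Finset.sum_mul, hrl.total, one_mul]
    have h2 : ∑ z, r z * ((Real.log n - Real.log ((2 : ℝ) ^ lev z.1.1 z.2.2)) - kap +
          max 0 (kap - (Real.log n - Real.log ((2 : ℝ) ^ lev z.1.1 z.2.2)))) = X - kap + b_ := by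
      have h3 := glue_sum_snd hp
        (fun z => (Real.log n - Real.log ((2 : ℝ) ^ lev z.1 z.2)) - kap +
          max 0 (kap - (Real.log n - Real.log ((2 : ℝ) ^ lev z.1 z.2))))
      have h4 : ∑ z, p z * ((Real.log n - Real.log ((2 : ℝ) ^ lev z.1 z.2)) - kap +
          max 0 (kap - (Real.log n - Real.log ((2 : ℝ) ^ lev z.1 z.2)))) = X - kap + b_ := by
        simp_rw [mul_add]
        rw [Finset.sum_add_distrib]
        congr 1
        have h5 : ∀ z : Ω × Fin n, p z * (Real.log n - Real.log ((2 : ℝ) ^ lev z.1 z.2) - kap) =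
            p z * (Real.log n - Real.log ((2 : ℝ) ^ lev z.1 z.2)) - p z * kap := fun z => by ring
        simp_rw [h5]
        rw [Finset.sum_sub_distrib, hXs, ← Finset.sum_mul, hp.total, one_mul]
      rw [← h4, ← h3]
      apply Finset.sum_congr rfl
      intro z _
      by_cases hz : glue p p (Prod.fst : Ω × Fin n → Ω) Prod.fst z = 0
      · rw [hr, hz]; simp
      · have h4 : z.1.1 = z.2.1 := (glue_supp hz).1
        rw [h4]
    rw [h2]
  -- lam2
  have hlam : lam p = Real.log n - (H p id - H p Prod.fst) := rfl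
  have haa : aa p = H p Prod.fst := rfl
  have hlam2 : 0 ≤ lam p - X + Hl := by
    rw [hlam, hX, hHld]
    linarith
  have hHl0 : 0 ≤ Hl := by
    have h1 : H p Prod.fst ≤ H p (fun z => (z.1, lab lev z)) :=
      H_mono hp (fun x y _ _ h => by simp only [Prod.mk.injEq] at h; exact h.1)
    linarith
  -- X ≤ lam + Hl
  have hX1 : X - kap ≤ Hl := by linarith
  have hHl1 : Hl ≤ 2 * B + 2 * e1 * (4 * Ip + 6 + B) := by
    have h1 : Loss ≤ Hl + (4 * Ip + 6 + B) := by linarith
    have h2 := mul_le_mul_of_nonneg_left h1 he0.le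
    have h3 : Hl ≤ B + e1 * (Hl + (4 * Ip + 6 + B)) := by linarith
    have h4 : e1 * Hl ≤ 1 / 2 * Hl := mul_le_mul_of_nonneg_right he2 hHl0
    have h5 : e1 * (Hl + (4 * Ip + 6 + B)) = e1 * Hl + e1 * (4 * Ip + 6 + B) := by ring
    have h6 : 2 * e1 * (4 * Ip + 6 + B) = 2 * (e1 * (4 * Ip + 6 + B)) := by ring
    rw [h6]
    linarith
  have hHJ1 : H p (fun z => lev z.1 z.2) ≤ CJ + e1 * (2 * b_ + Hl) := by
    have h1 := hJ (Ω × Fin n) p (fun z => lev z.1 z.2) (Real.log n - kap) hp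
    refine h1.trans ?_
    have h2 : ∑ z, p z * |((lev z.1 z.2 : ℕ) : ℝ) * Real.log 2 - (Real.log n - kap)| ≤ 2 * b_ + Hl := by
      have h3 : ∀ z : Ω × Fin n, p z * |((lev z.1 z.2 : ℕ) : ℝ) * Real.log 2 - (Real.log n - kap)| =
          2 * (p z * max 0 (kap - (Real.log n - Real.log ((2 : ℝ) ^ lev z.1 z.2)))) +
            (p z * (Real.log n - Real.log ((2 : ℝ) ^ lev z.1 z.2)) - p z * kap) := by
        intro z
        have h4 : ((lev z.1 z.2 : ℕ) : ℝ) * Real.log 2 - (Real.log n - kap) =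
            kap - (Real.log n - Real.log ((2 : ℝ) ^ lev z.1 z.2)) := by
          rw [Real.log_pow]
          ring
        rw [h4]
        rcases le_total 0 (kap - (Real.log n - Real.log ((2 : ℝ) ^ lev z.1 z.2))) with h | h
        · rw [abs_of_nonneg h, max_eq_right h]
          ring
        · rw [abs_of_nonpos h, max_eq_left h]
          ring
      simp_rw [h3]
      rw [Finset.sum_add_distrib, ← Finset.mul_sum, Finset.sum_sub_distrib, hXs, ← Finset.sum_mul,
        hp.total, one_mul]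
      linarith
    have := mul_le_mul_of_nonneg_left h2 he0.le
    linarith
  -- inequality (I)
  have hI : aa p ≤ b * (hh A D p + mi p) + d * lam p + d * Hl + H p (fun z => lev z.1 z.2) +
      2 * d + C1 * (1 + B) := by
    have h1 : b * (H p (fun z => (QQ D lev z, z.2, cell A D z.2 z.1)) -
        H p (fun z => (QQ D lev z, z.2))) ≤ b * hh A D p :=
      mul_le_mul_of_nonneg_left f3 (by linarith)
    have h2 : G * (LL p lev - (H p id - H p (fun z => (z.1, lab lev z)))) =
        G * (lam p - X + Hl) := by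
      rw [hlam, hX, hHld]
      ring
    have h3 : G * (lam p - X + Hl) ≤ d * (lam p - X + Hl) :=
      mul_le_mul_of_nonneg_right hGd hlam2
    have h4 : mi p = H p Prod.snd - (H p id - H p Prod.fst) := rfl
    have h5 : mi p ≤ b * mi p := le_mul_of_one_le_left hmi hb
    have h6 : H p (lab lev) - Hl ≤ H p (fun z => lev z.1 z.2) + mi p := by
      rw [h4, hHld]
      linarith
    have h7 : aa p = H p (fun z => (z.1, lab lev z)) - Hl := by
      rw [haa, hHld]
      ring
    have h8 : d * (X + 2) = d * X + 2 * d := by ring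
    have h9 : d * (lam p - X + Hl) = d * lam p - d * X + d * Hl := by ring
    have h10 : b * (hh A D p + mi p) = b * hh A D p + b * mi p := by ring
    rw [h2] at hL
    linarith
  -- conclusion
  have hbI : b_ ≤ 2 * Ip + 3 + B := by linarith
  have h1 : e1 * (2 * b_ + Hl) ≤ e1 * (4 * Ip + 6 + 2 * B) + e1 * Hl := by
    have h5 := mul_le_mul_of_nonneg_left hbI he0.le
    have h6 : e1 * (2 * b_ + Hl) = 2 * (e1 * b_) + e1 * Hl := by ring
    have h7 : e1 * (4 * Ip + 6 + 2 * B) = 2 * (e1 * (2 * Ip + 3 + B)) := by ring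
    rw [h6, h7]
    linarith
  have h2 : d * Hl + e1 * Hl ≤ (d + 1) * (2 * B + 2 * e1 * (4 * Ip + 6 + B)) := by
    have h3 : (d + e1) * Hl ≤ (d + 1) * Hl := mul_le_mul_of_nonneg_right (by linarith) hHl0
    have h4 : (d + 1) * Hl ≤ (d + 1) * (2 * B + 2 * e1 * (4 * Ip + 6 + B)) :=
      mul_le_mul_of_nonneg_left hHl1 (by positivity)
    have h5 : (d + e1) * Hl = d * Hl + e1 * Hl := by ring
    linarith
  have h3 : (d + 1) * (2 * B + 2 * e1 * (4 * Ip + 6 + B)) + e1 * (4 * Ip + 6 + 2 * B) ≤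
      ε * Ip + (d + 1) * (2 * B + (6 + B)) + (6 + 2 * B) := by
    have h4 : (d + 1) * (2 * B + 2 * e1 * (4 * Ip + 6 + B)) + e1 * (4 * Ip + 6 + 2 * B) =
        (e1 * (8 * d + 12)) * Ip + (d + 1) * (2 * B) + (2 * e1) * ((d + 1) * (6 + B)) +
          e1 * (6 + 2 * B) := by ring
    rw [h4]
    have h5 := mul_le_mul_of_nonneg_right heε hIp0
    have h6 : (2 * e1) * ((d + 1) * (6 + B)) ≤ 1 * ((d + 1) * (6 + B)) :=
      mul_le_mul_of_nonneg_right (by linarith) (by positivity)
    have h7 : e1 * (6 + 2 * B) ≤ 1 * (6 + 2 * B) :=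
      mul_le_mul_of_nonneg_right (by linarith) (by positivity)
    linarith
  linarith

end Pool.Agent.W349.HM
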