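import Pool.Agent.W46.HM.Stm

set_option autoImplicit false

open Finset
open scoped Classical

namespace Pool.Agent.W349.HM
open Pool.Agent.W904.AK Pool.Agent.W46.HD Pool.Agent.W46.HM

variable {Ω : Type} [Fintype Ω] {d n : ℕ}

/-- label of (line, height) -/
def lab (lev : Ω → Fin n → ℕ) (z : Ω × Fin n) : ℕ × ℕ := lb (lev z.1) z.2

/-- average logarithm of the length of the label -/
noncomputable def LL (p : Ω × Fin n → ℝ) (lev : Ω → Fin n → ℕ) : ℝ :=
  ∑ z, p z * Real.log ((2 : ℝ) ^ lev z.1 z.2)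

theorem lab_fst (lev : Ω → Fin n → ℕ) {x y : Ω × Fin n} (h : lab lev x = lab lev y) :
    lev x.1 x.2 = lev y.1 y.2 := congrArg Prod.fst h

theorem fact1a (D : Ω → Fin d → ℝ) {p : Ω × Fin n → ℝ} (hp : IsLaw p) (lev : Ω → Fin n → ℕ) :
    H p (fun z => (QQ D lev z, z.1, z.2)) = H p id := by
  apply H_congr hp
  · intro x y _ _ h
    have h2 := congrArg Prod.snd h
    exact h2
  · intro x y _ _ h
    have h2 : x = y := h
    rw [h2]

theorem QQ_of (D : Ω → Fin d → ℝ) (lev : Ω → Fin n → ℕ) {x y : Ω × Fin n} (h1 : x.1 = y.1)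
    (h2 : lab lev x = lab lev y) : QQ D lev x = QQ D lev y := by
  have h3 := lab_fst lev h2
  have h4 : lb (lev x.1) x.2 = lb (lev y.1) y.2 := h2
  unfold QQ
  rw [h4, h3, h1]

theorem lab_of (D : Ω → Fin d → ℝ) (lev : Ω → Fin n → ℕ) {x y : Ω × Fin n}
    (h : QQ D lev x = QQ D lev y) : lab lev x = lab lev y := congrArg Prod.fst h

theorem fact1b (D : Ω → Fin d → ℝ) {p : Ω × Fin n → ℝ} (hp : IsLaw p) (lev : Ω → Fin n → ℕ) :
    H p (fun z => (QQ D lev z, z.1)) = H p (fun z => (z.1, lab lev z)) := by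
  apply H_congr hp
  · intro x y _ _ h
    simp only [Prod.mk.injEq] at h ⊢
    exact ⟨h.2, lab_of D lev h.1⟩
  · intro x y _ _ h
    simp only [Prod.mk.injEq] at h ⊢
    exact ⟨QQ_of D lev h.1 h.2, h.1⟩

theorem fact3 (A D : Ω → Fin d → ℝ) {p : Ω × Fin n → ℝ} (hp : IsLaw p) (lev : Ω → Fin n → ℕ) :
    H p (fun z => (QQ D lev z, z.2, cell A D z.2 z.1)) - H p (fun z => (QQ D lev z, z.2)) ≤
      hh A D p := by
  unfold hh
  have h1 := submod' hp (f := fun z : Ω × Fin n => (QQ D lev z, z.2))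
    (g := fun z : Ω × Fin n => (z.2, cell A D z.2 z.1)) (h := fun z : Ω × Fin n => z.2)
    (k := fun z : Ω × Fin n => (QQ D lev z, z.2, cell A D z.2 z.1))
    (fun x y _ _ h => by simp only [Prod.mk.injEq] at h; exact h.2)
    (fun x y _ _ h => by simp only [Prod.mk.injEq] at h; exact h.1)
    (fun x y _ _ h => by
      simp only [Prod.mk.injEq] at h ⊢
      exact ⟨h.1.1, h.1.2, h.2.2⟩)
  have h2 : H p (fun z : Ω × Fin n => z.2) = H p Prod.snd := rfl
  rw [h2] at h1
  linarith

theorem log7 : Real.log 7 ≤ 2 := by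
  rw [Real.log_le_iff_le_exp (by norm_num)]
  have h1 := Real.exp_one_gt_d9
  have h2 : Real.exp 2 = Real.exp 1 * Real.exp 1 := by
    rw [← Real.exp_add]
    norm_num
  rw [h2]
  nlinarith

theorem fact4 (hCOST : S_COST) (D : Ω → Fin d → ℝ) (hn : 1 ≤ n) {p : Ω × Fin n → ℝ} (hp : IsLaw p)
    (lev : Ω → Fin n → ℕ) (hlev : ∀ ω s, p (ω, s) ≠ 0 → 2 ^ lev ω s < 2 * n) :
    H p (QQ D lev) ≤ H p (lab lev) + d * (Real.log n - LL p lev + 2) := by
  have hn' : (0 : ℝ) < n := by exact_mod_cast hn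
  have h1 := hCOST (Ω × Fin n) (ℕ × ℕ) (Fin d → ℤ) p (lab lev)
    (fun z => col n D (lev z.1 z.2) z.1)
    (fun z => d * (Real.log n - Real.log ((2 : ℝ) ^ lev z.1 z.2) + 2)) hp (by
      intro x hx
      refine ⟨Fintype.piFinset (fun _ : Fin d => Finset.Ico (0 : ℤ) (((n / 2 ^ lev x.1 x.2 : ℕ) : ℤ) + 3)),
        ?_, ?_⟩
      · intro y _ hxy
        have h2 := lab_fst lev hxy
        rw [Fintype.mem_piFinset]
        intro i
        rw [Finset.mem_Ico]
        unfold col
        rw [h2]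
        have h3 : (0 : ℤ) < ((n / 2 ^ lev x.1 x.2 : ℕ) : ℤ) + 3 := by positivity
        exact ⟨Int.emod_nonneg _ h3.ne', Int.emod_lt_of_pos _ h3⟩
      · rw [Fintype.card_piFinset, Finset.prod_const, Finset.card_univ, Fintype.card_fin,
          Int.card_Ico]
        have h3 : (((n / 2 ^ lev x.1 x.2 : ℕ) : ℤ) + 3 - 0).toNat = n / 2 ^ lev x.1 x.2 + 3 := by
          generalize n / 2 ^ lev x.1 x.2 = q
          omega
        rw [h3]
        push_cast
        rw [Real.log_pow]
        apply mul_le_mul_of_nonneg_left _ (Nat.cast_nonneg _)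
        have hL : (0 : ℝ) < (2 : ℝ) ^ lev x.1 x.2 := by positivity
        rw [← Real.log_div hn'.ne' hL.ne']
        have h4 : ((2 : ℝ) ^ lev x.1 x.2) < 2 * n := by exact_mod_cast hlev x.1 x.2 hx
        have h5 : (1 : ℝ) / 2 ≤ n / (2 : ℝ) ^ lev x.1 x.2 := by
          rw [le_div_iff₀ hL]
          linarith
        have h6 : (((n / 2 ^ lev x.1 x.2 : ℕ) : ℝ)) ≤ n / (2 : ℝ) ^ lev x.1 x.2 := by
          have := Nat.cast_div_le (α := ℝ) (m := n) (n := 2 ^ lev x.1 x.2)
          push_cast at this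
          exact this
        have h7 : (((n / 2 ^ lev x.1 x.2 : ℕ) : ℝ)) + 3 ≤ 7 * (n / (2 : ℝ) ^ lev x.1 x.2) := by
          linarith
        have h8 : Real.log ((((n / 2 ^ lev x.1 x.2 : ℕ) : ℝ)) + 3) ≤
            Real.log (7 * (n / (2 : ℝ) ^ lev x.1 x.2)) := by
          apply Real.log_le_log _ h7
          positivity
        rw [Real.log_mul (by norm_num) (by positivity)] at h8
        linarith [log7])
  have h2 : H p (fun x => (lab lev x, col n D (lev x.1 x.2) x.1)) = H p (QQ D lev) := rfl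
  rw [h2] at h1
  refine h1.trans (le_of_eq ?_)
  congr 1
  have h3 : ∀ z : Ω × Fin n, p z * (d * (Real.log n - Real.log ((2 : ℝ) ^ lev z.1 z.2) + 2)) =
      d * (Real.log n + 2) * p z - d * (p z * Real.log ((2 : ℝ) ^ lev z.1 z.2)) := by
    intro z
    ring
  simp_rw [h3]
  rw [Finset.sum_sub_distrib, ← Finset.mul_sum, ← Finset.mul_sum, hp.total]
  unfold LL
  ring

theorem fact5 {p : Ω × Fin n → ℝ} (hp : IsLaw p) (lev : Ω → Fin n → ℕ) :
    H p (lab lev) + H p id ≤ H p (fun z => lev z.1 z.2) + H p Prod.snd +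
      H p (fun z => (z.1, lab lev z)) := by
  have h1 := submod' hp (f := fun z : Ω × Fin n => (lev z.1 z.2, z.2))
    (g := fun z : Ω × Fin n => (z.1, lab lev z)) (h := lab lev)
    (k := (id : Ω × Fin n → Ω × Fin n))
    (fun x y _ _ h => by
      simp only [Prod.mk.injEq] at h
      unfold lab lb
      rw [h.1, h.2]) (fun x y _ _ h => by simp only [Prod.mk.injEq] at h; exact h.2)
    (fun x y _ _ h => by
      simp only [Prod.mk.injEq] at h
      exact Prod.ext h.2.1 h.1.2)
  have h2 : H p (fun z : Ω × Fin n => (lev z.1 z.2, z.2)) ≤ H p (fun z => lev z.1 z.2) + H p Prod.snd :=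
    subadd hp (f := fun z : Ω × Fin n => lev z.1 z.2) (g := Prod.snd) (fun _ _ _ _ h => h)
  linarith

theorem fact7 (hCOST : S_COST) {p : Ω × Fin n → ℝ} (hp : IsLaw p) (lev : Ω → Fin n → ℕ) :
    H p id ≤ H p (fun z => (z.1, lab lev z)) + LL p lev := by
  have h1 := hCOST (Ω × Fin n) (Ω × (ℕ × ℕ)) (Fin n) p (fun z => (z.1, lab lev z))
    (fun z => z.2) (fun z => Real.log ((2 : ℝ) ^ lev z.1 z.2)) hp (by
      intro x hx
      refine ⟨Finset.univ.filter (fun s : Fin n => (s : ℕ) / 2 ^ lev x.1 x.2 = (x.2 : ℕ) / 2 ^ lev x.1 x.2),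
        ?_, ?_⟩
      · intro y _ hxy
        have h3 : lab lev y = lab lev x := congrArg Prod.snd hxy
        have h4 := lab_fst lev h3
        have h5 : (y.2 : ℕ) / 2 ^ lev y.1 y.2 = (x.2 : ℕ) / 2 ^ lev x.1 x.2 := congrArg Prod.snd h3
        rw [Finset.mem_filter]
        refine ⟨Finset.mem_univ _, ?_⟩
        rw [← h5, h4]
      · set L := 2 ^ lev x.1 x.2 with hL
        have hLpos : 0 < L := by positivity
        set T := Finset.univ.filter (fun s : Fin n => (s : ℕ) / L = (x.2 : ℕ) / L) with hT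
        have hTne : 0 < T.card := Finset.card_pos.2 ⟨x.2, Finset.mem_filter.2 ⟨Finset.mem_univ _, rfl⟩⟩
        have hTle : T.card ≤ L := by
          have h2 : T.map Fin.valEmbedding ⊆
              Finset.Ico ((x.2 : ℕ) / L * L) ((x.2 : ℕ) / L * L + L) := by
            intro s hs
            rw [Finset.mem_map] at hs
            obtain ⟨s', hs', rfl⟩ := hs
            rw [hT, Finset.mem_filter] at hs'
            rw [Finset.mem_Ico, ← hs'.2]
            constructor
            · exact Nat.div_mul_le_self _ _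
            · have := Nat.lt_div_mul_add (a := (s' : ℕ)) hLpos
              exact this
          have h3 := Finset.card_le_card h2
          rw [Finset.card_map, Nat.card_Ico] at h3
          omega
        have h4 : (T.card : ℝ) ≤ (2 : ℝ) ^ lev x.1 x.2 := by
          have h5 : (T.card : ℝ) ≤ (L : ℝ) := by exact_mod_cast hTle
          rw [hL] at h5
          push_cast at h5
          exact h5
        exact Real.log_le_log (by exact_mod_cast hTne) h4)
  have h2 : H p id ≤ H p (fun x : Ω × Fin n => ((x.1, lab lev x), x.2)) := by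
    apply H_mono hp
    intro x y _ _ h
    simp only [Prod.mk.injEq] at h
    exact Prod.ext h.1.1 h.2
  unfold LL
  linarith

end Pool.Agent.W349.HM
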