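import Pool.Agent.W349.HM.Facts

set_option autoImplicit false

open Finset
open scoped Classical

namespace Pool.Agent.W349.HM
open Pool.Agent.W904.AK Pool.Agent.W46.HD Pool.Agent.W46.HM

variable {Ω : Type} [Fintype Ω] {n : ℕ}

/-- mass of a line -/
noncomputable def Pm (p : Ω × Fin n → ℝ) (w : Ω) : ℝ := im p Prod.fst w

/-- conditional law of the height -/
noncomputable def mu (p : Ω × Fin n → ℝ) (w : Ω) (s : Fin n) : ℝ := p (w, s) / Pm p w

theorem Pm_eq (p : Ω × Fin n → ℝ) (w : Ω) : Pm p w = ∑ s, p (w, s) := by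
  unfold Pm
  rw [im_eq_sum, Fintype.sum_prod_type, Finset.sum_eq_single w]
  · simp
  · intro w' _ hw
    simp [hw]
  · simp

theorem Pm_nonneg {p : Ω × Fin n → ℝ} (hp : IsLaw p) (w : Ω) : 0 ≤ Pm p w := im_nonneg hp _ _

theorem p_eq {p : Ω × Fin n → ℝ} (hp : IsLaw p) (w : Ω) (s : Fin n) :
    p (w, s) = Pm p w * mu p w s := by
  unfold mu
  by_cases h : Pm p w = 0
  · rw [h, zero_mul]
    rw [Pm_eq] at h
    exact (Finset.sum_eq_zero_iff_of_nonneg (fun s _ => hp.nonneg (w, s))).1 h s (Finset.mem_univ _)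
  · field_simp

theorem mu_law {p : Ω × Fin n → ℝ} (hp : IsLaw p) (w : Ω) (hw : Pm p w ≠ 0) : IsLaw (mu p w) := by
  constructor
  · intro s
    exact div_nonneg (hp.nonneg _) (Pm_nonneg hp w)
  · unfold mu
    rw [← Finset.sum_div, ← Pm_eq, div_self hw]

theorem mu_nonneg {p : Ω × Fin n → ℝ} (hp : IsLaw p) (w : Ω) (s : Fin n) : 0 ≤ mu p w s :=
  div_nonneg (hp.nonneg _) (Pm_nonneg hp w)

theorem glue_sum {p : Ω × Fin n → ℝ} (F : (Ω × Fin n) × (Ω × Fin n) → ℝ) :
    ∑ z, glue p p Prod.fst Prod.fst z * F z =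
      ∑ z, p z * ∑ y, mu p z.1 y * F (z, (z.1, y)) := by
  rw [Fintype.sum_prod_type]
  apply Finset.sum_congr rfl
  intro z _
  rw [Fintype.sum_prod_type, Finset.sum_eq_single z.1]
  · rw [Finset.mul_sum]
    apply Finset.sum_congr rfl
    intro y _
    unfold glue mu Pm
    simp only [if_true]
    ring
  · intro w' _ hw
    apply Finset.sum_eq_zero
    intro y _
    unfold glue
    rw [if_neg (fun h => hw h.symm), zero_mul]
  · simp

theorem glue_sum_fst {p : Ω × Fin n → ℝ} (hp : IsLaw p) (F : Ω × Fin n → ℝ) :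
    ∑ z, glue p p Prod.fst Prod.fst z * F z.1 = ∑ z, p z * F z := by
  have := sum_im_mul (glue p p (Prod.fst : Ω × Fin n → Ω) Prod.fst) Prod.fst F
  rw [glue_fst hp (fun _ => rfl)] at this
  exact this.symm

theorem glue_sum_snd {p : Ω × Fin n → ℝ} (hp : IsLaw p) (F : Ω × Fin n → ℝ) :
    ∑ z, glue p p Prod.fst Prod.fst z * F z.2 = ∑ z, p z * F z := by
  have := sum_im_mul (glue p p (Prod.fst : Ω × Fin n → Ω) Prod.fst) Prod.snd F
  rw [glue_snd hp (fun _ => rfl)] at this
  exact this.symm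

theorem sum_fst (p : Ω × Fin n → ℝ) (F : Ω → ℝ) : ∑ z, p z * F z.1 = ∑ w, Pm p w * F w := by
  rw [Fintype.sum_prod_type]
  apply Finset.sum_congr rfl
  intro w _
  rw [Pm_eq, Finset.sum_mul]

theorem sum_two {p : Ω × Fin n → ℝ} (hp : IsLaw p) (F : Ω → Fin n → Fin n → ℝ) :
    ∑ z, p z * (∑ x, ∑ y, mu p z.1 x * mu p z.1 y * F z.1 x y) =
      ∑ z, glue p p Prod.fst Prod.fst z * F z.1.1 z.1.2 z.2.2 := by
  rw [glue_sum (p := p) (fun z => F z.1.1 z.1.2 z.2.2),
    sum_fst p (fun w => ∑ x, ∑ y, mu p w x * mu p w y * F w x y), Fintype.sum_prod_type]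
  apply Finset.sum_congr rfl
  intro w _
  rw [Finset.mul_sum]
  apply Finset.sum_congr rfl
  intro x _
  rw [p_eq hp w x, mul_assoc, Finset.mul_sum (a := mu p w x)]
  congr 1
  apply Finset.sum_congr rfl
  intro y _
  ring

/-- entropy of the labels given the line -/
theorem Hl_eq {p : Ω × Fin n → ℝ} (hp : IsLaw p) (lev : Ω → Fin n → ℕ) :
    H p (fun z => (z.1, lab lev z)) - H p Prod.fst = ∑ z, p z * H (mu p z.1) (lb (lev z.1)) := by
  have h1 := chain hp (Prod.fst : Ω × Fin n → Ω) (lab lev)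
  rw [h1]
  apply Finset.sum_congr rfl
  intro z _
  by_cases hz : p z = 0
  · rw [hz, zero_mul, zero_mul]
  congr 1
  have hw : Pm p z.1 ≠ 0 := (im_pos hp (Prod.fst : Ω × Fin n → Ω) hz).ne'
  have hφ : im (mu p z.1) (fun s => (z.1, s)) = cd p (Prod.fst : Ω × Fin n → Ω) z.1 := by
    funext y
    rw [im_eq_sum]
    unfold cd
    by_cases hy : y.1 = z.1
    · rw [if_pos hy, Finset.sum_eq_single y.2]
      · have h2 : ((z.1, y.2) : Ω × Fin n) = y := Prod.ext hy.symm rfl
        rw [if_pos h2]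
        unfold mu Pm
        rw [h2]
      · intro s _ hs
        rw [if_neg]
        intro h3
        apply hs
        rw [← h3]
      · simp
    · rw [if_neg hy]
      apply Finset.sum_eq_zero
      intro s _
      rw [if_neg]
      intro h3
      apply hy
      rw [← h3]
  rw [← H_map hφ (lab lev)]
  rfl

/-- sums over classes -/
theorem class_sum {α : Type} [DecidableEq α] (μ g : Fin n → ℝ) (hμ : ∑ s, μ s = 1) (c : Fin n → α) (B : ℝ)
    (h : ∀ s, ∑ z, (if c z = c s then μ z * g z else 0) ≤ B * ∑ z, (if c z = c s then μ z else 0)) :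
    ∑ z, μ z * g z ≤ B := by
  have h1 : ∀ f : Fin n → ℝ, ∑ a ∈ Finset.univ.image c, ∑ z, (if c z = a then f z else 0) =
      ∑ z, f z := by
    intro f
    have := Finset.sum_fiberwise_of_maps_to (s := Finset.univ) (t := Finset.univ.image c) (g := c)
      (fun z hz => Finset.mem_image_of_mem c hz) f
    rw [← this]
    apply Finset.sum_congr rfl
    intro a _
    rw [Finset.sum_filter]
  calc ∑ z, μ z * g z = ∑ a ∈ Finset.univ.image c, ∑ z, (if c z = a then μ z * g z else 0) :=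
        (h1 _).symm
    _ ≤ ∑ a ∈ Finset.univ.image c, B * ∑ z, (if c z = a then μ z else 0) := by
        apply Finset.sum_le_sum
        intro a ha
        obtain ⟨s, -, rfl⟩ := Finset.mem_image.1 ha
        exact h s
    _ = B := by
        rw [← Finset.mul_sum, h1, hμ, mul_one]

end Pool.Agent.W349.HM
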